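import Pool.Agent.K3h12.DM.Stm

/-!
# DM brick LOC2: two anisotropic forms over `ℚ_2`
-/

set_option autoImplicit false

namespace Pool.Agent.K3h57.DM

theorem mod8 (a : ℤ_[2]) : PadicInt.toZModPow 3 a = 0 ↔ ‖a‖ ≤ 1 / 8 := by
  rw [← RingHom.mem_ker, PadicInt.ker_toZModPow, ← PadicInt.norm_le_pow_iff_mem_span_pow]
  have : ((2 : ℕ) : ℝ) ^ (-((3 : ℕ) : ℤ)) = 1 / 8 := by
    rw [zpow_neg, zpow_natCast]
    norm_num
  rw [this]

theorem dec1 : ∀ x y z : ZMod (2 ^ 3), (x = 1 ∨ y = 1 ∨ z = 1) → x ^ 2 + y ^ 2 + 5 * z ^ 2 ≠ 0 := by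
  decide +kernel

theorem dec2 : ∀ y z : ZMod (2 ^ 3), (y = 1 ∨ z = 1) → y ^ 2 + 3 * z ^ 2 = 4 ∨
    y ^ 2 + 3 * z ^ 2 = 1 ∨ y ^ 2 + 3 * z ^ 2 = 3 ∨ y ^ 2 + 3 * z ^ 2 = 5 ∨
    y ^ 2 + 3 * z ^ 2 = 7 := by
  decide +kernel

theorem norm_le_one (m : ℚ_[2]) (n : ℕ) (h : ‖m - n‖ ≤ 1 / 8) : ‖m‖ ≤ 1 := by
  have h1 : m = (m - n) + n := by ring
  rw [h1]
  refine (Padic.nonarchimedean _ _).trans (max_le (h.trans (by norm_num)) ?_)
  have := Padic.norm_int_le_one (p := 2) (n : ℤ)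
  simpa using this

theorem toZ (M : ℤ_[2]) (n : ℕ) (h : ‖(M : ℚ_[2]) - n‖ ≤ 1 / 8) :
    PadicInt.toZModPow 3 M = (n : ZMod (2 ^ 3)) := by
  have h1 : PadicInt.toZModPow 3 (M - (n : ℤ_[2])) = 0 := by
    rw [mod8, PadicInt.norm_def]
    push_cast
    exact h
  rw [map_sub, map_natCast, sub_eq_zero] at h1
  exact h1

theorem part1 (m x y z : ℚ_[2]) (hm : ‖m - 5‖ ≤ 1 / 8) (h : x ^ 2 + y ^ 2 + m * z ^ 2 = 0) :
    x = 0 ∧ y = 0 ∧ z = 0 := by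
  obtain ⟨c, hc, h1, h2, h3⟩ : ∃ c : ℚ_[2], (x = c ∨ y = c ∨ z = c) ∧ ‖x‖ ≤ ‖c‖ ∧ ‖y‖ ≤ ‖c‖ ∧
      ‖z‖ ≤ ‖c‖ := by
    rcases le_total ‖x‖ ‖y‖ with a | a
    · rcases le_total ‖y‖ ‖z‖ with b | b
      · exact ⟨z, Or.inr (Or.inr rfl), a.trans b, b, le_rfl⟩
      · exact ⟨y, Or.inr (Or.inl rfl), a, le_rfl, b⟩
    · rcases le_total ‖x‖ ‖z‖ with b | b
      · exact ⟨z, Or.inr (Or.inr rfl), b, a.trans b, le_rfl⟩
      · exact ⟨x, Or.inl rfl, le_rfl, a, b⟩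
  by_cases hc0 : c = 0
  · rw [hc0, norm_zero] at h1 h2 h3
    exact ⟨norm_le_zero_iff.1 h1, norm_le_zero_iff.1 h2, norm_le_zero_iff.1 h3⟩
  exfalso
  have hcn : 0 < ‖c‖ := norm_pos_iff.2 hc0
  have hm1 : ‖m‖ ≤ 1 := norm_le_one m 5 (by exact_mod_cast hm)
  let X : ℤ_[2] := ⟨x / c, by rw [norm_div]; exact (div_le_one hcn).2 h1⟩
  let Y : ℤ_[2] := ⟨y / c, by rw [norm_div]; exact (div_le_one hcn).2 h2⟩
  let Z : ℤ_[2] := ⟨z / c, by rw [norm_div]; exact (div_le_one hcn).2 h3⟩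
  let M : ℤ_[2] := ⟨m, hm1⟩
  have hM : PadicInt.toZModPow 3 M = (5 : ZMod (2 ^ 3)) := by
    have := toZ M 5 (by exact_mod_cast hm)
    exact_mod_cast this
  have heq : X ^ 2 + Y ^ 2 + M * Z ^ 2 = 0 := by
    apply PadicInt.ext
    change (x / c) ^ 2 + (y / c) ^ 2 + m * (z / c) ^ 2 = 0
    have : (x / c) ^ 2 + (y / c) ^ 2 + m * (z / c) ^ 2 = (x ^ 2 + y ^ 2 + m * z ^ 2) / c ^ 2 := by
      ring
    rw [this, h, zero_div]
  have hone : X = 1 ∨ Y = 1 ∨ Z = 1 := by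
    rcases hc with hc | hc | hc
    · left
      apply PadicInt.ext
      change x / c = 1
      rw [hc, div_self hc0]
    · right; left
      apply PadicInt.ext
      change y / c = 1
      rw [hc, div_self hc0]
    · right; right
      apply PadicInt.ext
      change z / c = 1
      rw [hc, div_self hc0]
  have h4 := congrArg (PadicInt.toZModPow 3) heq
  rw [map_add, map_add, map_mul, map_pow, map_pow, map_pow, hM, map_zero] at h4
  refine dec1 _ _ _ ?_ h4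
  rcases hone with h5 | h5 | h5
  · left; rw [h5, map_one]
  · right; left; rw [h5, map_one]
  · right; right; rw [h5, map_one]

theorem norm_of (N : ℤ_[2]) (n : ℕ) (h : PadicInt.toZModPow 3 N = (n : ZMod (2 ^ 3)))
    (hn : 1 / 8 < ‖(n : ℤ_[2])‖) : ‖N‖ = ‖(n : ℤ_[2])‖ := by
  have h1 : ‖N - n‖ ≤ 1 / 8 := by
    rw [← mod8, map_sub, map_natCast, h, sub_self]
  have h2 : N = (N - n) + n := by ring
  rw [h2, PadicInt.norm_add_eq_max_of_ne (ne_of_lt (lt_of_le_of_lt h1 hn))]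
  exact max_eq_right (h1.trans hn.le)

theorem norm_odd (n : ℕ) (hn : n % 2 = 1) : ‖(n : ℤ_[2])‖ = 1 := by
  rw [PadicInt.norm_natCast_eq_one_iff]
  exact Nat.coprime_two_left.2 (Nat.odd_iff.2 hn)

theorem norm_four : ‖((4 : ℕ) : ℤ_[2])‖ = 1 / 4 := by
  have h1 : ((4 : ℕ) : ℤ_[2]) = (2 : ℤ_[2]) ^ 2 := by norm_num
  rw [h1, norm_pow]
  have h2 : ‖(2 : ℤ_[2])‖ = (2 : ℝ)⁻¹ := by
    have := PadicInt.norm_p (p := 2)
    exact_mod_cast this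
  rw [h2]
  norm_num

theorem part2 (m δ x y z : ℚ_[2]) (hm : ‖m - 3‖ ≤ 1 / 8) (hδ : ‖δ‖ = 1 / 2)
    (h : x ^ 2 = δ * (y ^ 2 + m * z ^ 2)) : x = 0 ∧ y = 0 ∧ z = 0 := by
  obtain ⟨c, hc, h2, h3⟩ : ∃ c : ℚ_[2], (y = c ∨ z = c) ∧ ‖y‖ ≤ ‖c‖ ∧ ‖z‖ ≤ ‖c‖ := by
    rcases le_total ‖y‖ ‖z‖ with b | b
    · exact ⟨z, Or.inr rfl, b, le_rfl⟩
    · exact ⟨y, Or.inl rfl, le_rfl, b⟩
  by_cases hc0 : c = 0
  · rw [hc0, norm_zero] at h2 h3
    have hy := norm_le_zero_iff.1 h2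
    have hz := norm_le_zero_iff.1 h3
    refine ⟨?_, hy, hz⟩
    rw [hy, hz] at h
    have h4 : x ^ 2 = 0 := by rw [h]; ring
    exact pow_eq_zero_iff (two_ne_zero) |>.1 h4
  exfalso
  have hcn : 0 < ‖c‖ := norm_pos_iff.2 hc0
  have hm1 : ‖m‖ ≤ 1 := norm_le_one m 3 (by exact_mod_cast hm)
  let Y : ℤ_[2] := ⟨y / c, by rw [norm_div]; exact (div_le_one hcn).2 h2⟩
  let Z : ℤ_[2] := ⟨z / c, by rw [norm_div]; exact (div_le_one hcn).2 h3⟩
  let M : ℤ_[2] := ⟨m, hm1⟩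
  have hM : PadicInt.toZModPow 3 M = (3 : ZMod (2 ^ 3)) := by
    have := toZ M 3 (by exact_mod_cast hm)
    exact_mod_cast this
  have hone : PadicInt.toZModPow 3 Y = 1 ∨ PadicInt.toZModPow 3 Z = 1 := by
    rcases hc with hc | hc
    · left
      have : Y = 1 := by
        apply PadicInt.ext
        change y / c = 1
        rw [hc, div_self hc0]
      rw [this, map_one]
    · right
      have : Z = 1 := by
        apply PadicInt.ext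
        change z / c = 1
        rw [hc, div_self hc0]
      rw [this, map_one]
  obtain ⟨N, hN⟩ : ∃ N : ℤ_[2], N = Y ^ 2 + M * Z ^ 2 := ⟨_, rfl⟩
  have hφ : PadicInt.toZModPow 3 N = PadicInt.toZModPow 3 Y ^ 2 +
      3 * PadicInt.toZModPow 3 Z ^ 2 := by
    rw [hN, map_add, map_mul, map_pow, map_pow, hM]
  have hnorm : ‖N‖ = 1 / 4 ∨ ‖N‖ = 1 := by
    rcases dec2 _ _ hone with h5 | h5 | h5 | h5 | h5
    · left
      rw [norm_of N 4 (by rw [hφ, h5]; norm_num) (by rw [norm_four]; norm_num), norm_four]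
    · right
      rw [norm_of N 1 (by rw [hφ, h5]; norm_num) (by rw [norm_odd 1 rfl]; norm_num),
        norm_odd 1 rfl]
    · right
      rw [norm_of N 3 (by rw [hφ, h5]; norm_num) (by rw [norm_odd 3 rfl]; norm_num),
        norm_odd 3 rfl]
    · right
      rw [norm_of N 5 (by rw [hφ, h5]; norm_num) (by rw [norm_odd 5 rfl]; norm_num),
        norm_odd 5 rfl]
    · right
      rw [norm_of N 7 (by rw [hφ, h5]; norm_num) (by rw [norm_odd 7 rfl]; norm_num),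
        norm_odd 7 rfl]
  have hx : (x / c) ^ 2 = δ * (N : ℚ_[2]) := by
    have e : (N : ℚ_[2]) = (y / c) ^ 2 + m * (z / c) ^ 2 := by
      rw [hN]
      rfl
    rw [e]
    have e2 : (x / c) ^ 2 = x ^ 2 / c ^ 2 := by ring
    rw [e2, h]
    ring
  have hnx : ‖x / c‖ ^ 2 = 1 / 2 * ‖N‖ := by
    rw [← norm_pow, hx, norm_mul, hδ, PadicInt.norm_def]
  have hx0 : x / c ≠ 0 := by
    intro h0
    rw [h0, norm_zero] at hnx
    rcases hnorm with h5 | h5 <;> rw [h5] at hnx <;> norm_num at hnx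
  have hv := Padic.norm_eq_zpow_neg_valuation hx0
  rw [hv] at hnx
  obtain ⟨k, hk⟩ : ∃ k : ℤ, k = (x / c).valuation := ⟨_, rfl⟩
  rw [← hk, ← zpow_natCast, ← zpow_mul] at hnx
  have h2r : ((2 : ℕ) : ℝ) = 2 := by norm_num
  rw [h2r] at hnx
  rcases hnorm with h5 | h5
  · rw [h5] at hnx
    have h6 : (1 / 2 * (1 / 4) : ℝ) = (2 : ℝ) ^ (-3 : ℤ) := by norm_num
    rw [h6] at hnx
    have h7 := zpow_right_injective₀ (by norm_num : (0 : ℝ) < 2) (by norm_num) hnx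
    push_cast at h7
    omega
  · rw [h5] at hnx
    have h6 : (1 / 2 * 1 : ℝ) = (2 : ℝ) ^ (-1 : ℤ) := by norm_num
    rw [h6] at hnx
    have h7 := zpow_right_injective₀ (by norm_num : (0 : ℝ) < 2) (by norm_num) hnx
    push_cast at h7
    omega

theorem t_LOC2 : Pool.Agent.K3h12.DM.S_LOC2 := ⟨part1, part2⟩

end Pool.Agent.K3h57.DM
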